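import Pool.Agent.Helper52.PG.Goals
import Pool.Agent.Helper96.Arb.Index
import Pool.Agent.Helper19.Arb.Close
import Pool.Agent.Helper49.Arb.Cofactor
import Pool.Agent.Helper94.Arb.Detblock

/-!
PROJECT C2, target (a), IDX and CLOSEM.
-/

namespace Pool.Agent.Helper82.PG

open Pool.Agent.Helper36.SC Pool.Agent.Helper37.Arb Pool.Agent.Helper52.PG
open Pool.Agent.Helper96.Arb

theorem beside_index (s : Bool) (M N : Marked) (h1 : ∃ k, Index false M k)
    (h2 : ∃ k, Index s N k) : ∃ k, Index s (mbeside M N) k := by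
  obtain ⟨k₁, a1, a2, a3, a4⟩ := h1
  obtain ⟨k₂, b1, b2, b3, b4⟩ := h2
  rw [if_neg Bool.false_ne_true] at a4
  refine ⟨Sum.elim k₁ k₂, ?_, ?_, a3, ?_⟩
  · exact pu_swapUnder (pu_union (D := M.D) (E := N.D) a1 b1) a4 b3
  · exact po_swapUnder (po_union (D := M.D) (E := N.D) a2 b2) _ _
  · exact b4

/-- IDX -/
theorem idx : GoalIdx := by
  refine ⟨?_, ?_, ?_, ?_, ?_⟩
  · refine ⟨fun _ => 0, ?_, ?_, ?_, ?_⟩ <;> simp [mcross]
  · rintro M N ⟨k₁, a1, a2, a3, a4⟩ ⟨k₂, b1, b2, b3, b4⟩
    rw [if_pos rfl] at a4 b4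
    refine ⟨⟨Sum.elim k₁ k₂, ?_, ?_, b3, ?_⟩, ⟨Sum.elim k₁ k₂, ?_, ?_, a3, ?_⟩⟩
    · exact pu_swapOver (pu_swapUnder (a := Sum.inl M.l) (b := Sum.inr N.l)
        (pu_union (D := M.D) (E := N.D) a1 b1) a3 b3) _ _
    · exact po_swapOver (po_swapUnder (po_union (D := M.D) (E := N.D) a2 b2) _ _) a4 b4
    · rw [if_pos rfl]
      exact b4
    · exact pu_swapOver (pu_union (D := M.D) (E := N.D) a1 b1) _ _
    · exact po_swapOver (po_union (D := M.D) (E := N.D) a2 b2) a4 b4
    · rw [if_neg Bool.false_ne_true]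
      exact b3
  · exact beside_index
  · rintro M ⟨k, a1, a2, a3, a4⟩
    rw [if_pos rfl] at a4
    refine ⟨fun v => -k v, ?_, ?_, ?_, ?_⟩
    · intro v
      have h := a2 v
      show -k (M.D.overNext v) - (if M.D.pos (M.D.overNext v) then 0 else 1) =
        -k v - (if M.D.pos v then 0 else 1)
      linarith
    · intro v
      have h := a1 v
      show -k (M.D.underNext v) + (if M.D.pos (M.D.underNext v) then 0 else 1) =
        -k v + (if M.D.pos v then 0 else 1)
      linarith
    · show -k M.r - (if M.D.pos M.r then 0 else 1) = 0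
      linarith
    · rw [if_pos rfl]
      show -k M.l + (if M.D.pos M.l then 0 else 1) = 0
      linarith
  · rintro P ⟨k, a1, a2, a3, a4⟩
    rw [if_neg Bool.false_ne_true] at a4
    have key : ∀ b : Bool, (if !b then (0 : ℤ) else 1) = 1 - (if b then 0 else 1) := by
      intro b
      cases b <;> rfl
    refine ⟨fun v => 1 - k v, ?_, ?_, ?_, ?_⟩
    · intro v
      have h := pu_swapUnder (D := P.D) a1 a3 a4 v
      show 1 - k ((swapUnder P.D P.l P.r).underNext v) -
        (if !P.D.pos ((swapUnder P.D P.l P.r).underNext v) then 0 else 1) =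
        1 - k v - (if !P.D.pos v then 0 else 1)
      rw [key, key]
      change k ((swapUnder P.D P.l P.r).underNext v) -
        (if P.D.pos ((swapUnder P.D P.l P.r).underNext v) then 0 else 1) =
        k v - (if P.D.pos v then 0 else 1) at h
      linarith
    · intro v
      have h := a2 v
      show 1 - k (P.D.overNext v) + (if !P.D.pos (P.D.overNext v) then 0 else 1) =
        1 - k v + (if !P.D.pos v then 0 else 1)
      rw [key, key]
      linarith
    · show 1 - k P.l - (if !P.D.pos P.l then 0 else 1) = 0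
      rw [key]
      linarith
    · rw [if_neg Bool.false_ne_true]
      show 1 - k P.r - (if !P.D.pos P.r then 0 else 1) = 0
      rw [key]
      linarith

/-- CLOSEM -/
theorem closeM : GoalCloseM := by
  have hC : GoalCofactor := Pool.Agent.Helper49.Arb.cofactor
  have hD : GoalDetOne := Pool.Agent.Helper94.Arb.detOne
  refine ⟨?_, ?_⟩
  · rintro M j L R b hv hR ⟨k, hk⟩
    refine ⟨fun u => j - k u, fun u x hx => ?_⟩
    obtain ⟨hL0, hR0, hb0, -⟩ := hv x hx
    obtain ⟨hdet, hsol⟩ := hR x hx
    obtain ⟨h, h1, -, h3⟩ := hsol 0 1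
    have hpos : 0 < b x + R x := by linarith
    have hne : (openMat true M x).det ≠ 0 := by
      rw [hdet]
      exact (mul_pos (zpow_pos hx _) hpos).ne'
    rw [mul_zero, mul_one, Pi.single_zero, zero_add] at h1
    have h4 := hD (openMat true M x) (M.D.overNext M.r) M.r _ h hne h1
    refine Pool.Agent.Helper19.Arb.fin M.D hC hx k hk.hU hk.hO hk.hl hb0 ?_ u
    have e : lap M.D x + stepU M.D x M.l = openMat true M x -
        Matrix.single (M.D.overNext M.r) M.r (bwd M.D x (M.D.overNext M.r)) := by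
      unfold openMat
      rw [if_pos rfl, stepO, add_sub_cancel_right]
    rw [e, h4, hdet]
    have h5 : h M.r = R x / (b x + R x) := by
      rw [eq_div_iff hpos.ne']
      linarith
    rw [h5]
    field_simp
    ring
  · rintro P j a b hv hR ⟨k, hk⟩
    refine ⟨fun u => j + 1 - k u, fun u x hx => ?_⟩
    obtain ⟨hL0, hb0⟩ := hv x hx
    obtain ⟨-, hR⟩ := hR
    obtain ⟨hdet, hsol⟩ := hR x hx
    obtain ⟨h, h1, -, h3⟩ := hsol 0 1
    have hpos : 0 < a x + x * b x := by positivity
    have hne : (openMat false P x).det ≠ 0 := by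
      rw [hdet]
      exact (mul_pos (zpow_pos hx _) hpos).ne'
    rw [mul_zero, mul_one, Pi.single_zero, zero_add] at h1
    have h4 := hD (openMat false P x) P.r (P.D.underNext P.r) _ h hne h1
    refine Pool.Agent.Helper19.Arb.fin P.D hC hx k hk.hU hk.hO hk.hl hb0 ?_ u
    have e : lap P.D x + stepU P.D x P.l = openMat false P x -
        Matrix.single P.r (P.D.underNext P.r) (fwd P.D x P.r) := by
      unfold openMat
      rw [if_neg (by decide)]
      conv_rhs => rw [stepU, stepU]
      rw [stepU, add_sub_cancel_right]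
    rw [e, h4, hdet]
    have h5 : h (P.D.underNext P.r) = a x / (a x + x * b x) := by
      rw [eq_div_iff hpos.ne']
      linarith
    rw [h5, zpow_add₀ hx.ne', zpow_one]
    field_simp
    ring

end Pool.Agent.Helper82.PG
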