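import Pool.Agent.Helper99.PG.Goals1

/-!
PROJECT C2 (MP_2b0227_gt), SLOTNN: positivity of the slots of an affine kernel.
-/

namespace Pool.Agent.Helper82.PG

open Pool.Agent.Helper52.C2 Pool.Agent.Helper99.PG
open LaurentPolynomial
open scoped Classical

theorem coeff_T_mul' (f : LaurentPolynomial ℝ) (k i : ℤ) :
    (T k * f).coeff i = f.coeff (i - k) := by
  have h := AddMonoidAlgebra.coeff_single_mul_apply f (1 : ℝ) k i
  rw [one_mul, neg_add_eq_sub] at h
  exact h

/-- the key formula -/
theorem key (hH : GoalCoefH) (hM : GoalCoefMul) {J : Type} [Fintype J] [DecidableEq J]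
    (Φ : (J → Tg) → LaurentPolynomial ℝ) (hΦ : Affine Φ) (a : J → Tg) (l : J) (c : Cpl (a l))
    (i : ℤ) : (Φ a).coeff i = ∑ p ∈ c.m.support,
      c.m p * (Φ (Function.update a l (U (p.2 - p.1)))).coeff (i - p.1) := by
  have h1 : Φ a = ((a l).mul (slot Φ a l)).F := by
    have h := hΦ a l (a l)
    rw [Function.update_eq_self] at h
    exact h
  have h2 := hM (a l) (slot Φ a l) c i
  rw [← h1] at h2
  rw [h2]
  refine Finset.sum_congr rfl fun p _ => ?_
  have h3 := hH (slot Φ a l) (p.2 - p.1) (i - p.1)
  have h4 : ((U (p.2 - p.1)).mul (slot Φ a l)).F =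
      Φ (Function.update a l (U (p.2 - p.1))) := (hΦ a l (U (p.2 - p.1))).symm
  rw [← h3, h4]

theorem claim (hH : GoalCoefH) (hM : GoalCoefMul) (hC : ∀ S : Tg, S.Nonneg → Nonempty (Cpl S))
    {J : Type} [Fintype J] [DecidableEq J]
    (Φ : (J → Tg) → LaurentPolynomial ℝ) (hΦ : Affine Φ)
    (h0 : ∀ (n : J → ℤ), (∀ e, 0 ≤ n e) → ∀ (k : J) (i : ℤ),
      0 ≤ (Φ fun e => U (n e)).coeff i ∧
      (Φ fun e => U (n e)).coeff i ≤ (Φ fun e => U (n e + if e = k then 1 else 0)).coeff i ∧
      (Φ fun e => U (n e)).coeff (i - 1) ≤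
        (Φ fun e => U (n e + if e = k then 1 else 0)).coeff i)
    (k : J) (s : Finset J) : k ∉ s → ∀ a : J → Tg, (∀ l ∈ s, (a l).Nonneg) →
      (∀ l, l ∉ s → l ≠ k → ∃ n : ℤ, 0 ≤ n ∧ a l = U n) →
      ∀ i : ℤ, 0 ≤ (Φ (Function.update a k (U 0))).coeff i ∧
        (Φ (Function.update a k (U 0))).coeff i ≤ (Φ (Function.update a k (U 1))).coeff i ∧
        (Φ (Function.update a k (U 0))).coeff (i - 1) ≤
          (Φ (Function.update a k (U 1))).coeff i := by
  induction s using Finset.induction_on with
  | empty =>
    intro _ a _ hr i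
    have hr' : ∀ l, ∃ n : ℤ, 0 ≤ n ∧ (l ≠ k → a l = U n) := fun l => by
      by_cases hl : l = k
      · exact ⟨0, le_refl _, fun h => absurd hl h⟩
      · obtain ⟨n, hn, h⟩ := hr l (Finset.notMem_empty l) hl
        exact ⟨n, hn, fun _ => h⟩
    choose n hn ha using hr'
    have hn' : ∀ e, 0 ≤ (fun e => if e = k then 0 else n e) e := fun e => by
      dsimp only
      split_ifs
      · exact le_refl _
      · exact hn e
    have h := h0 (fun e => if e = k then 0 else n e) hn' k i
    have e0 : (fun e => U ((fun e => if e = k then 0 else n e) e)) =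
        Function.update a k (U 0) := by
      funext e
      by_cases he : e = k
      · subst he
        simp
      · simp [he, ha e he]
    have e1 : (fun e => U ((fun e => if e = k then 0 else n e) e + if e = k then 1 else 0)) =
        Function.update a k (U 1) := by
      funext e
      by_cases he : e = k
      · subst he
        simp
      · simp [he, ha e he]
    rw [e0, e1] at h
    exact h
  | insert l s hl ih =>
    intro hk a hs hr i
    have hkl : l ≠ k := fun h => hk (h ▸ Finset.mem_insert_self l s)
    have hks : k ∉ s := fun h => hk (Finset.mem_insert_of_mem h)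
    obtain ⟨c⟩ := hC (a l) (hs l (Finset.mem_insert_self l s))
    have kf : ∀ (S : Tg) (j : ℤ), (Φ (Function.update a k S)).coeff j =
        ∑ p ∈ c.m.support, c.m p * (Φ (Function.update (Function.update a l (U (p.2 - p.1)))
          k S)).coeff (j - p.1) := fun S j => by
      have hal : Function.update a k S l = a l := Function.update_of_ne hkl _ _
      have h := key hH hM Φ hΦ (Function.update a k S) l (hal.symm ▸ c) j
      have hm : (hal.symm ▸ c : Cpl (Function.update a k S l)).m = c.m := by
        generalize Function.update a k S l = b at hal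
        subst hal
        rfl
      rw [hm] at h
      rw [h]
      refine Finset.sum_congr rfl fun p _ => ?_
      rw [Function.update_comm hkl]
    have hp : ∀ p ∈ c.m.support, ∀ j : ℤ,
        0 ≤ (Φ (Function.update (Function.update a l (U (p.2 - p.1))) k (U 0))).coeff j ∧
        (Φ (Function.update (Function.update a l (U (p.2 - p.1))) k (U 0))).coeff j ≤
          (Φ (Function.update (Function.update a l (U (p.2 - p.1))) k (U 1))).coeff j ∧
        (Φ (Function.update (Function.update a l (U (p.2 - p.1))) k (U 0))).coeff (j - 1) ≤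
          (Φ (Function.update (Function.update a l (U (p.2 - p.1))) k (U 1))).coeff j :=
      fun p hp j => by
        refine ih hks _ (fun l' hl' => ?_) (fun l' hl' hlk => ?_) j
        · have hne : l' ≠ l := fun h => hl (h ▸ hl')
          rw [Function.update_of_ne hne]
          exact hs l' (Finset.mem_insert_of_mem hl')
        · by_cases hll : l' = l
          · subst hll
            exact ⟨p.2 - p.1, sub_nonneg.2 (c.le p (Finsupp.mem_support_iff.1 hp)),
              Function.update_self _ _ _⟩
          · rw [Function.update_of_ne hll]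
            exact hr l' (fun h => (Finset.mem_insert.1 h).elim hll hl') hlk
    refine ⟨?_, ?_, ?_⟩
    · rw [kf]
      exact Finset.sum_nonneg fun p h => mul_nonneg (c.nonneg p) (hp p h _).1
    · rw [kf, kf]
      exact Finset.sum_le_sum fun p h => mul_le_mul_of_nonneg_left (hp p h _).2.1 (c.nonneg p)
    · rw [kf, kf]
      refine Finset.sum_le_sum fun p h => mul_le_mul_of_nonneg_left ?_ (c.nonneg p)
      have h' := (hp p h (i - p.1)).2.2
      have e : i - 1 - p.1 = i - p.1 - 1 := by ring
      rw [e]
      exact h'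

/-- SLOTNN -/
theorem slotNN : GoalSlotNN := by
  intro hH hM hC J _ _ Φ hΦ h0 a k ha
  have h := claim hH hM hC Φ hΦ h0 k (Finset.univ.erase k) (Finset.notMem_erase k _) a
    (fun l _ => ha l)
    (fun l hl hlk => absurd (Finset.mem_erase.2 ⟨hlk, Finset.mem_univ l⟩) hl)
  refine ⟨fun i => ?_, fun i => ?_, fun i => ?_⟩
  · have h1 := (h i).2.2
    change 0 ≤ (Φ (Function.update a k (U 1)) - T 1 * Φ (Function.update a k (U 0))).coeff i
    rw [AddMonoidAlgebra.coeff_sub, Finsupp.sub_apply, coeff_T_mul']
    linarith
  · have h1 := (h i).2.1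
    change 0 ≤ (Φ (Function.update a k (U 1)) - Φ (Function.update a k (U 0))).coeff i
    rw [AddMonoidAlgebra.coeff_sub, Finsupp.sub_apply]
    linarith
  · exact (h i).1

end Pool.Agent.Helper82.PG
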